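import Pool.Agent.W997.UG.Final

/-!
# Nondeterministic versus deterministic space at all levels

We compare nondeterministic and deterministic branching programs which read few of the variables;
the logarithm of the size of a branching program is the space of a (nonuniform) machine.  The
functions are the lowest bits of the values at the roots of the unrolled De Bruijn graph of height
`h`: the nodes of height `j ≤ h` are the pairs of a word and a letter, the children of a node are the
nodes of the next smaller height whose words arise by shifting, and every inner node has a table
indexed by the tuples of values of its children.  With `N` the number of variables we show for all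
heights `1 ≤ h ≤ 2 ^ p`, where `2 ^ p ≥ N ^ c`:

* there are unambiguous nondeterministic programs in space `O(h + log N log h)`, that is, in space
  `O(h)` for all `h ≥ log N log log N`;
* deterministic programs which read few variables need the space `Θ(h log N)`, on average.

So for programs which read few variables a nondeterministic space `s` cannot be simulated in
deterministic space `c * s * log N`, for all `s` between `log N log log N` and `N ^ c`, not even if
the nondeterminism is unambiguous (both for the function and its complement).

Proof idea.  The unambiguous program guesses the values of the children of a node, and keeps them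
only in encoded form: the contents of the memory are moved by vectors from a code in a growing box,
once before and once after the node has been read, and only for the right guess both moves fit.
The lower bound is the law for deterministic programs which read few variables.
-/

set_option autoImplicit false

namespace Pool.Agent.Results.MP_768539_lc.SavitchGap

open Finset
open Pool.Agent.W997.DB Pool.Agent.W997.UG

/-- For every `δ > 0` there are `D`, `ℓ₁`, `c, C > 0` and `p₀` such that for all `p ≥ p₀` and all
`1 ≤ h ≤ 2 ^ p`, with `ℓ = ℓ₁ * p`, alphabet `Fin (2 ^ ℓ)` and `N` the number of variables of the
unrolled De Bruijn graph of height `h` over words of length `2 * p + 1` (then `N ^ c ≤ 2 ^ p`), the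
lowest bit of the value of every root

* is computed by an unambiguous nondeterministic branching program of log size at most
  `C * (h + log N * log (h + 1))` whose halting computations have at most `C ^ h` steps and read at
  most `N ^ δ` different variables; the log size is at most `3 * C * h` if `h ≥ log N * log log N`,
* is computed by a deterministic branching program of log size at most `2 * h * log N` which, on
  every input, stops after at most `D ^ (h + 1)` steps and reads at most `N ^ δ` different
  variables,
* but every deterministic branching program of log size at most `c * h * log N` which halts on all
  inputs, with the right answer on a fraction of at least `1 / 2 + N ^ (-c)` of them, reads on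
  average at least `N ^ (1 - δ)` different variables. -/
theorem result : ∀ δ : ℝ, 0 < δ → ∃ D ℓ₁ : ℕ, 2 ≤ D ∧ 1 ≤ ℓ₁ ∧
    ∃ c C : ℝ, 0 < c ∧ 0 < C ∧ ∃ p₀ : ℕ,
    ∀ p : ℕ, p₀ ≤ p → ∀ h : ℕ, 1 ≤ h → h ≤ 2 ^ p → ∀ ℓ : ℕ, ℓ = ℓ₁ * p → ∀ N : ℝ,
    N = Fintype.card (Var D (2 * p) h (2 ^ ℓ)) → N ^ c ≤ 2 ^ p ∧
      ∀ (g : Word D (2 * p)) (i : Fin D) (f : Input D (2 * p) h (2 ^ ℓ) → Bool),
      f = rootBit g i →
      ByUnambiguous f (C * (h + Real.log N * Real.log (h + 1))) (C ^ h) (N ^ δ) ∧
      (Real.log N * Real.log (Real.log N) ≤ h →
        ByUnambiguous f (3 * C * h) (C ^ h) (N ^ δ)) ∧
      ByProgram f (2 * h * Real.log N) (D ^ (h + 1)) (N ^ δ) ∧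
      HardReads f (c * h * Real.log N) (N ^ (-c)) (N ^ (1 - δ)) :=
  fun δ hδ => gap_stmt δ hδ

end Pool.Agent.Results.MP_768539_lc.SavitchGap
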