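import Pool.Agent.W896.CN.Stack

/-!
# Deterministic simulation of nondeterministic automata with linear space and a stack

A one-way nondeterministic automaton with `O (n ^ 2)` states reads words of length `n`; this is a
non-uniform machine with nondeterministic logarithmic space that reads every letter of its input
only once. We ask how a deterministic machine can do the same. It is given as much as possible:
`n / D` bits of memory (linear space), in addition a stack (pushdown store) of unlimited height,
an unlimited number of steps, random access to the input, the automaton itself may be known or be
read arbitrarily often, and random bits with one-sided error, where a word that is not accepted by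
the automaton has to be found out with probability `2 ^ (- n / D)` only. Still it must read letters
more than `k n` times, for every constant `k`.

(With the stack and without the bound on the number of the reads such machines with logarithmic
memory decide exactly the languages in P, Cook 1971.)

Proof. The automaton guesses a clause of a formula in conjunctive normal form and checks that the
word violates it. There are such formulas of linear size with clauses of constant size which have
many models but no large combinatorial rectangle of models (starting files). A computation with a
stack that reads at most `k n` letters can be cut into a constant number of pieces which are
determined by few nodes (`Pool.Agent.W896.PD.blocks`), so that the rectangle theorem for linear time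
of the starting files (`Pool.Agent.H554R2.Lin.main_rect`; Ajtai; Beame, Saks, Sun and Vee) applies.
-/

set_option autoImplicit false

namespace Pool.Agent.Results.MP_768539_lc.StackSimulation

open Pool.Agent.W896.PD Pool.Agent.W896.CN

/-- For every `k` there is a constant `D` such that for all `n` and `m ≥ D (n + 1) ^ 2` there is a
nondeterministic automaton `A` with `m` states such that for every finite nonempty family `U r` of
deterministic pushdown programs whose inputs are the bits of an automaton with `m` states and of a
word of length `n`: if no `U r` outputs `true` on `A` and a word accepted by `A`, and if on `A` and
any word not accepted by `A` at least a `2 ^ (- ⌊n / D⌋)` fraction of the `U r` outputs `true` after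
at most `k n` queries to the letters of the word (and any number of other queries, and of steps),
then some `U r` has at least `2 ^ ⌊n / D⌋` nodes. -/
theorem result (k : ℕ) : ∃ D : ℕ, 0 < D ∧ ∀ n m : ℕ, D * (n + 1) ^ 2 ≤ m →
    ∃ A : NFA Bool (Fin m), ∀ (R : Type) [Fintype R] [Nonempty R] (U : R → PP (Bit m n) Bool),
      (∀ r w L, (U r).Comp (bitsOf A w) L true → List.ofFn w ∉ A.accepts) →
      (∀ w : Fin n → Bool, List.ofFn w ∉ A.accepts → Nat.card R ≤ 2 ^ (n / D) *
        Nat.card {r // ∃ L, (U r).Comp (bitsOf A w) L true ∧
          ∑ i, L.count (Bit.word i) ≤ k * n}) →
      ∃ r, 2 ^ (n / D) ≤ Fintype.card (U r).State :=
  nfa_stack k

end Pool.Agent.Results.MP_768539_lc.StackSimulation
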